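import Pool.Agent.U89.ML.Grp

/-!
# Kernels with a scattered system: the closure properties
-/

set_option autoImplicit false
set_option linter.unusedSectionVars false

namespace Pool.Agent.U89.SC

open Pool.Agent.Y110.FJ
open Pool.Agent.R942.FJ
open Pool.Agent.U89.ML (sup_quot)

variable {C : ∀ (G : Type) [Group G], Prop}

theorem crit (hC : ClosedE C) {L : Type} [Group L] (K : Subgroup L) [K.Normal] (hQ : C (L ⧸ K))
    (h : ∀ (g : L) (E : Set L), E.Finite → E ⊆ K → Realized C g E) : C L :=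
  Pool.Agent.R779.FJ.t_crit Pool.Agent.Y529.FJ.t_ext
    (Pool.Agent.Y961.FJ.t_perm Pool.Agent.Y529.FJ.t_ext) C hC L K hQ h

theorem realized_of {L : Type} [Group L] {g : L} {E : Set L} (M : Subgroup L) (hE : E ⊆ M)
    (hg : g ∈ M) {P : Type} [Group P] (f : M →* P)
    (hinj : ∀ x : M, (x : L) ∈ Subgroup.closure (E ∪ (fun x => g * x * g⁻¹) '' E) →
      f x = 1 → x = 1) (hP : C P) : Realized C g E := by
  have hle : Subgroup.closure (E ∪ (fun x => g * x * g⁻¹) '' E) ≤ M := by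
    rw [Subgroup.closure_le]
    rintro x (hx | ⟨y, hy, rfl⟩)
    · exact hE hx
    · exact M.mul_mem (M.mul_mem hg (hE hy)) (M.inv_mem hg)
  refine ⟨P, inferInstance, f.comp (Subgroup.inclusion hle), f ⟨g, hg⟩, hP, ?_, ?_⟩
  · rw [injective_iff_map_eq_one]
    intro x hx
    have h1 := hinj (Subgroup.inclusion hle x) x.2 hx
    exact Subtype.ext (congrArg (fun z : M => (z : L)) h1)
  · intro x y _ hy
    rw [← map_inv, MonoidHom.comp_apply, MonoidHom.comp_apply, ← map_mul, ← map_mul]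
    congr 1
    exact Subtype.ext hy

variable {G : Type} [Group G]

/-- the quotients `T⟨g⟩ / S` are in `C` -/
def Gd (C : ∀ (G : Type) [Group G], Prop) (S T : Subgroup G) : Prop :=
  ∀ (_ : S.Normal) (h : G ⧸ S), C ↥(T.map (QuotientGroup.mk' S) ⊔ Subgroup.zpowers h)

theorem C_sub (hC : ClosedE C) {L : Type} [Group L] {A B : Subgroup L} (hAB : A ≤ B) (hB : C B) :
    C A :=
  hC.base.of_injective A B (Subgroup.inclusion hAB) (Subgroup.inclusion_injective hAB) hB

theorem C_quot (hC : ClosedE C) {L P : Type} [Group L] [Group P] (K : Subgroup L) [K.Normal]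
    (ψ : L →* P) (hψ : ∀ x, ψ x = 1 ↔ x ∈ K) (hP : C P) : C (L ⧸ K) := by
  refine hC.base.of_injective _ _ (QuotientGroup.lift K ψ fun x hx => (hψ x).2 hx) ?_ hP
  rw [injective_iff_map_eq_one]
  intro x hx
  obtain ⟨y, rfl⟩ := QuotientGroup.mk'_surjective K x
  exact (QuotientGroup.eq_one_iff y).2 ((hψ y).1 hx)

theorem Gd.mono (hC : ClosedE C) {S T T' : Subgroup G} (hT : T' ≤ T) (h : Gd C S T) : Gd C S T' :=
  fun hS g => C_sub hC (sup_le_sup_right (Subgroup.map_mono hT) _) (h hS g)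

theorem Gd.of_solvable (hsol : ∀ (S : Type) [Group S], Group.IsSolvable S → C S)
    {S T : Subgroup G} (hT : T.Normal)
    (h : ∀ (_ : S.Normal), Group.IsSolvable ↥(T.map (QuotientGroup.mk' S))) : Gd C S T := by
  intro hS g
  have hn : (T.map (QuotientGroup.mk' S)).Normal :=
    Subgroup.Normal.map hT _ (QuotientGroup.mk'_surjective S)
  exact hsol _ (solv_sup _ (h hS) g)

theorem Gd.refl (hsol : ∀ (S : Type) [Group S], Group.IsSolvable S → C S)
    {S : Subgroup G} (hS : S.Normal) : Gd C S S := by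
  refine Gd.of_solvable hsol hS ?_
  intro _
  have h1 : S.map (QuotientGroup.mk' S) = ⊥ := by
    rw [eq_bot_iff]
    rintro _ ⟨x, hx, rfl⟩
    exact (QuotientGroup.eq_one_iff x).2 hx
  rw [h1]
  infer_instance

/-- `C (A ⟨h⟩)` from local information; `A` normal -/
theorem C_sup_crit (hC : ClosedE C) (hsol : ∀ (S : Type) [Group S], Group.IsSolvable S → C S)
    {U : Type} [Group U] (A : Subgroup U) (hA : A.Normal) (h : U)
    (hr : ∀ (l : U) (E : Set U), l ∈ A ⊔ Subgroup.zpowers h → E.Finite → E ⊆ A →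
      ∃ (M : Subgroup U) (P : Type) (_ : Group P) (f : M →* P), M ≤ A ⊔ Subgroup.zpowers h ∧
        E ⊆ M ∧ l ∈ M ∧ C P ∧
        ∀ x : M, (x : U) ∈ Subgroup.closure (E ∪ (fun x => l * x * l⁻¹) '' E) → f x = 1 → x = 1) :
    C ↥(A ⊔ Subgroup.zpowers h) := by
  have hn : (A.subgroupOf (A ⊔ Subgroup.zpowers h)).Normal := hA.subgroupOf _
  refine crit hC (A.subgroupOf (A ⊔ Subgroup.zpowers h)) (hsol _ (sup_quot A h)) ?_
  intro l E hE hEA
  have hEA' : (A ⊔ Subgroup.zpowers h).subtype '' E ⊆ A := by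
    rintro _ ⟨x, hx, rfl⟩
    exact hEA hx
  obtain ⟨M, P, _, f, hM, hEM, hlM, hP, hf⟩ := hr l ((A ⊔ Subgroup.zpowers h).subtype '' E) l.2
    (hE.image _) hEA'
  refine realized_of (M.subgroupOf (A ⊔ Subgroup.zpowers h)) ?_ hlM
    (f.comp (((A ⊔ Subgroup.zpowers h).subtype.comp
      (Subgroup.subtype (M.subgroupOf (A ⊔ Subgroup.zpowers h)))).codRestrict M fun x => x.2)) ?_ hP
  · intro x hx
    exact hEM ⟨x, hx, rfl⟩
  · intro x hx hx1
    have h1 : ((x : ↥(A ⊔ Subgroup.zpowers h)) : U) ∈ Subgroup.closure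
        (((A ⊔ Subgroup.zpowers h).subtype '' E) ∪
          (fun x => (l : U) * x * (l : U)⁻¹) '' ((A ⊔ Subgroup.zpowers h).subtype '' E)) := by
      have h2 : ((A ⊔ Subgroup.zpowers h).subtype '' E) ∪
          (fun x => (l : U) * x * (l : U)⁻¹) '' ((A ⊔ Subgroup.zpowers h).subtype '' E) =
          (A ⊔ Subgroup.zpowers h).subtype '' (E ∪ (fun x => l * x * l⁻¹) '' E) := by
        rw [Set.image_union]
        congr 1
        rw [Set.image_image, Set.image_image]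
        rfl
      rw [h2, ← MonoidHom.map_closure]
      exact ⟨x, hx, rfl⟩
    have h3 := hf _ h1 hx1
    apply Subtype.ext
    apply Subtype.ext
    exact congrArg (fun z : M => (z : U)) h3

/-- transitivity -/
theorem Gd.trans (hC : ClosedE C) {S M T : Subgroup G} (hM : M.Normal) (hSM : S ≤ M) (hMT : M ≤ T)
    (h1 : Gd C S M) (h2 : Gd C M T) : Gd C S T := by
  intro hS h
  obtain ⟨h0, rfl⟩ := QuotientGroup.mk'_surjective S h
  obtain ⟨L, hL⟩ : ∃ L : Subgroup (G ⧸ S), L = T.map (QuotientGroup.mk' S) ⊔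
      Subgroup.zpowers (QuotientGroup.mk' S h0) := ⟨_, rfl⟩
  rw [← hL]
  have hMn : (M.map (QuotientGroup.mk' S)).Normal :=
    Subgroup.Normal.map hM _ (QuotientGroup.mk'_surjective S)
  have hn : ((M.map (QuotientGroup.mk' S)).subgroupOf L).Normal := hMn.subgroupOf _
  have hMS : M.map (QuotientGroup.mk' S) ≤ L := by
    rw [hL]
    exact (Subgroup.map_mono hMT).trans le_sup_left
  let φ : G ⧸ S →* G ⧸ M := QuotientGroup.map S M (MonoidHom.id G) hSM
  have hφ : ∀ x : G, φ (QuotientGroup.mk' S x) = QuotientGroup.mk' M x := fun x => rfl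
  have hφL : ∀ x ∈ L, φ x ∈ T.map (QuotientGroup.mk' M) ⊔
      Subgroup.zpowers (QuotientGroup.mk' M h0) := by
    have h3 : L ≤ (T.map (QuotientGroup.mk' M) ⊔
      Subgroup.zpowers (QuotientGroup.mk' M h0)).comap φ := by
      rw [hL]
      refine sup_le ?_ ?_
      · rintro _ ⟨x, hx, rfl⟩
        rw [Subgroup.mem_comap, hφ]
        exact Subgroup.mem_sup_left ⟨x, hx, rfl⟩
      · rw [Subgroup.zpowers_le, Subgroup.mem_comap, hφ]
        exact Subgroup.mem_sup_right (Subgroup.mem_zpowers _)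
    exact fun x hx => h3 hx
  have hker : ∀ x : G ⧸ S, φ x = 1 ↔ x ∈ M.map (QuotientGroup.mk' S) := by
    intro x
    obtain ⟨y, rfl⟩ := QuotientGroup.mk'_surjective S x
    rw [hφ]
    constructor
    · intro h3
      exact ⟨y, (QuotientGroup.eq_one_iff y).1 h3, rfl⟩
    · rintro ⟨z, hz, hzy⟩
      have h3 : QuotientGroup.mk' M z = QuotientGroup.mk' M y := by
        rw [← hφ, ← hφ, hzy]
      rw [← h3]
      exact (QuotientGroup.eq_one_iff z).2 hz
  refine crit hC ((M.map (QuotientGroup.mk' S)).subgroupOf L) ?_ ?_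
  · let ψ : L →* ↥(T.map (QuotientGroup.mk' M) ⊔ Subgroup.zpowers (QuotientGroup.mk' M h0)) :=
      (φ.comp L.subtype).codRestrict _ fun x => hφL x x.2
    refine C_quot hC _ ψ (fun x => ?_) (h2 hM _)
    rw [Subgroup.mem_subgroupOf, ← hker]
    constructor
    · intro h3
      exact congrArg Subtype.val h3
    · intro h3
      exact Subtype.ext h3
  · intro l E hE hEM
    refine realized_of (((M.map (QuotientGroup.mk' S)) ⊔ Subgroup.zpowers (l : G ⧸ S)).subgroupOf L)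
      ?_ ?_ (((L.subtype.comp (Subgroup.subtype
        (((M.map (QuotientGroup.mk' S)) ⊔ Subgroup.zpowers (l : G ⧸ S)).subgroupOf L)))).codRestrict
        ((M.map (QuotientGroup.mk' S)) ⊔ Subgroup.zpowers (l : G ⧸ S)) fun x => x.2) ?_ (h1 hS _)
    · intro x hx
      exact Subgroup.mem_sup_left (hEM hx)
    · exact Subgroup.mem_sup_right (Subgroup.mem_zpowers _)
    · intro x _ hx1
      have h3 : ((x : L) : G ⧸ S) = 1 := congrArg Subtype.val hx1
      apply Subtype.ext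
      apply Subtype.ext
      exact h3

/-- ascending unions -/
theorem Gd.union (hC : ClosedE C) (hsol : ∀ (S : Type) [Group S], Group.IsSolvable S → C S)
    {S : Subgroup G} (𝓣 : Set (Subgroup G)) (hne : 𝓣.Nonempty) (hch : IsChain (· ≤ ·) 𝓣)
    (hnT : ∀ T ∈ 𝓣, T.Normal) (h : ∀ T ∈ 𝓣, Gd C S T) : Gd C S (sSup 𝓣) := by
  intro hS g
  have hdir : DirectedOn (· ≤ ·) 𝓣 := hch.directedOn
  have hn : ((sSup 𝓣).map (QuotientGroup.mk' S)).Normal := by
    refine Subgroup.Normal.map ?_ _ (QuotientGroup.mk'_surjective S)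
    constructor
    intro x hx y
    rw [Subgroup.mem_sSup_of_directedOn hne hdir] at hx ⊢
    obtain ⟨T, hT, hxT⟩ := hx
    exact ⟨T, hT, (hnT T hT).conj_mem x hxT y⟩
  refine C_sup_crit hC hsol _ hn g ?_
  intro l E hl hE hEA
  obtain ⟨T, hT, hET⟩ : ∃ T ∈ 𝓣, E ⊆ (T.map (QuotientGroup.mk' S) : Subgroup (G ⧸ S)) := by
    refine hE.induction_on_subset E ?_ ?_
    · obtain ⟨T, hT⟩ := hne
      exact ⟨T, hT, Set.empty_subset _⟩
    · intro a s ha _ _ ih
      obtain ⟨T, hT, hsT⟩ := ih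
      obtain ⟨x, hx, hxa⟩ := hEA ha
      have hx' : x ∈ sSup 𝓣 := hx
      rw [Subgroup.mem_sSup_of_directedOn hne hdir] at hx'
      obtain ⟨T', hT', hxT'⟩ := hx'
      obtain ⟨T'', hT'', h1, h2⟩ := hdir T hT T' hT'
      refine ⟨T'', hT'', ?_⟩
      intro z hz
      rcases Set.mem_insert_iff.1 hz with rfl | hz
      · exact ⟨x, h2 hxT', hxa⟩
      · exact Subgroup.map_mono h1 (hsT hz)
  refine ⟨T.map (QuotientGroup.mk' S) ⊔ Subgroup.zpowers l, _, inferInstance, MonoidHom.id _, ?_,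
    ?_, Subgroup.mem_sup_right (Subgroup.mem_zpowers _), h T hT hS l, fun x _ hx => hx⟩
  · refine sup_le ?_ ?_
    · exact (Subgroup.map_mono (le_sSup hT)).trans le_sup_left
    · rw [Subgroup.zpowers_le]
      exact hl
  · exact fun x hx => Subgroup.mem_sup_left (hET hx)

/-- descending intersections -/
theorem Gd.inter (hC : ClosedE C) (hsol : ∀ (S : Type) [Group S], Group.IsSolvable S → C S)
    {T : Subgroup G} (hT : T.Normal) (𝓣 : Set (Subgroup G)) (hnT : ∀ S ∈ 𝓣, S.Normal)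
    (hloc : ∀ E : Set G, E.Finite → E ⊆ T → ∃ S ∈ 𝓣, Subgroup.closure E ⊓ S ≤ sInf 𝓣)
    (h : ∀ S ∈ 𝓣, Gd C S T) : Gd C (sInf 𝓣) T := by
  intro hS g
  obtain ⟨S, hSdef⟩ : ∃ S : Subgroup G, S = sInf 𝓣 := ⟨_, rfl⟩
  subst hSdef
  have hn : (T.map (QuotientGroup.mk' (sInf 𝓣))).Normal :=
    Subgroup.Normal.map hT _ (QuotientGroup.mk'_surjective _)
  refine C_sup_crit hC hsol _ hn g ?_
  intro l E hl hE hEA
  obtain ⟨g0, rfl⟩ := QuotientGroup.mk'_surjective (sInf 𝓣) g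
  obtain ⟨l0, rfl⟩ := QuotientGroup.mk'_surjective (sInf 𝓣) l
  -- lift the finite set
  obtain ⟨E0, hE0, hE0T, hE0E⟩ : ∃ E0 : Set G, E0.Finite ∧ E0 ⊆ T ∧
      QuotientGroup.mk' (sInf 𝓣) '' E0 = E := by
    have h1 : ∀ x : E, ∃ y ∈ T, QuotientGroup.mk' (sInf 𝓣) y = x := fun x => hEA x.2
    choose y hy hyx using h1
    have : Finite E := hE
    refine ⟨Set.range y, Set.finite_range y, ?_, ?_⟩
    · rintro _ ⟨x, rfl⟩
      exact hy x
    · ext z
      constructor
      · rintro ⟨_, ⟨x, rfl⟩, rfl⟩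
        rw [hyx]
        exact x.2
      · intro hz
        exact ⟨y ⟨z, hz⟩, ⟨⟨z, hz⟩, rfl⟩, hyx ⟨z, hz⟩⟩
  obtain ⟨S, hS', hloc'⟩ := hloc (E0 ∪ (fun x => l0 * x * l0⁻¹) '' E0) (hE0.union (hE0.image _)) (by
    rintro x (hx | ⟨y, hy, rfl⟩)
    · exact hE0T hx
    · exact hT.conj_mem y (hE0T hy) l0)
  have hSn := hnT S hS'
  let φ : G ⧸ (sInf 𝓣) →* G ⧸ S := QuotientGroup.map (sInf 𝓣) S (MonoidHom.id G) (sInf_le hS')
  have hφ : ∀ x : G, φ (QuotientGroup.mk' (sInf 𝓣) x) = QuotientGroup.mk' S x := fun x => rfl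
  have hφL : ∀ x ∈ T.map (QuotientGroup.mk' (sInf 𝓣)) ⊔
      Subgroup.zpowers (QuotientGroup.mk' (sInf 𝓣) g0), φ x ∈ T.map (QuotientGroup.mk' S) ⊔
      Subgroup.zpowers (QuotientGroup.mk' S g0) := by
    have h3 : T.map (QuotientGroup.mk' (sInf 𝓣)) ⊔
      Subgroup.zpowers (QuotientGroup.mk' (sInf 𝓣) g0) ≤ (T.map (QuotientGroup.mk' S) ⊔
      Subgroup.zpowers (QuotientGroup.mk' S g0)).comap φ := by
      refine sup_le ?_ ?_
      · rintro _ ⟨x, hx, rfl⟩
        rw [Subgroup.mem_comap, hφ]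
        exact Subgroup.mem_sup_left ⟨x, hx, rfl⟩
      · rw [Subgroup.zpowers_le, Subgroup.mem_comap, hφ]
        exact Subgroup.mem_sup_right (Subgroup.mem_zpowers _)
    exact fun x hx => h3 hx
  refine ⟨T.map (QuotientGroup.mk' (sInf 𝓣)) ⊔ Subgroup.zpowers (QuotientGroup.mk' (sInf 𝓣) g0),
    ↥(T.map (QuotientGroup.mk' S) ⊔ Subgroup.zpowers (QuotientGroup.mk' S g0)), inferInstance,
    (φ.comp (Subgroup.subtype _)).codRestrict _ fun x => hφL x x.2, le_rfl,
    fun x hx => Subgroup.mem_sup_left (hEA hx), hl, h S hS' hSn _, ?_⟩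
  intro x hx hx1
  have h4 : E ∪ (fun x => QuotientGroup.mk' (sInf 𝓣) l0 * x *
      (QuotientGroup.mk' (sInf 𝓣) l0)⁻¹) '' E =
      QuotientGroup.mk' (sInf 𝓣) '' (E0 ∪ (fun x => l0 * x * l0⁻¹) '' E0) := by
    rw [Set.image_union, hE0E]
    congr 1
    rw [← hE0E, Set.image_image, Set.image_image]
    rfl
  rw [h4, ← MonoidHom.map_closure] at hx
  obtain ⟨z, hz, hzx⟩ := hx
  have h5 : QuotientGroup.mk' S z = 1 := by
    have h6 : φ (x : G ⧸ sInf 𝓣) = 1 := congrArg Subtype.val hx1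
    rw [← hzx] at h6
    exact h6
  have h7 : z ∈ sInf 𝓣 := hloc' ⟨hz, (QuotientGroup.eq_one_iff z).1 h5⟩
  apply Subtype.ext
  rw [← hzx]
  exact (QuotientGroup.eq_one_iff z).2 h7

/-- the end -/
theorem Gd.final (hC : ClosedE C) (N : Subgroup G) [N.Normal] (hQ : C (G ⧸ N))
    (h : Gd C ⊥ N) : C G := by
  refine crit hC N hQ ?_
  intro g E _ hEN
  have hb : (⊥ : Subgroup G).Normal := inferInstance
  have hmem : ∀ x ∈ N ⊔ Subgroup.zpowers g, QuotientGroup.mk' (⊥ : Subgroup G) x ∈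
      N.map (QuotientGroup.mk' (⊥ : Subgroup G)) ⊔
        Subgroup.zpowers (QuotientGroup.mk' (⊥ : Subgroup G) g) := by
    intro x hx
    rw [← MonoidHom.map_zpowers, ← Subgroup.map_sup]
    exact ⟨x, hx, rfl⟩
  refine realized_of (N ⊔ Subgroup.zpowers g) (fun x hx => Subgroup.mem_sup_left (hEN hx))
    (Subgroup.mem_sup_right (Subgroup.mem_zpowers g))
    (((QuotientGroup.mk' (⊥ : Subgroup G)).comp (Subgroup.subtype _)).codRestrict _
      fun x => hmem x x.2) ?_ (h hb (QuotientGroup.mk' (⊥ : Subgroup G) g))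
  intro x _ hx1
  have h1 : QuotientGroup.mk' (⊥ : Subgroup G) (x : G) = 1 := congrArg Subtype.val hx1
  have h2 := (QuotientGroup.eq_one_iff (x : G)).1 h1
  exact Subtype.ext h2

end Pool.Agent.U89.SC
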