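import Pool.Agent.U89.SC.Gd

/-!
# Kernels with a scattered system: the main theorem
-/

set_option autoImplicit false
set_option linter.unusedSectionVars false

namespace Pool.Agent.U89.SC

open Pool.Agent.Y110.FJ
open Pool.Agent.R942.FJ

variable {C : ∀ (G : Type) [Group G], Prop} {G : Type} [Group G]

/-- a complete chain of normal subgroups of `G` from the trivial subgroup to `N` -/
structure IsSystem (N : Subgroup G) (𝓢 : Set (Subgroup G)) : Prop where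
  normal : ∀ S ∈ 𝓢, S.Normal
  bot_mem : ⊥ ∈ 𝓢
  top_mem : N ∈ 𝓢
  le_top : ∀ S ∈ 𝓢, S ≤ N
  chain : IsChain (· ≤ ·) 𝓢
  sSup_mem : ∀ 𝓣 ⊆ 𝓢, 𝓣.Nonempty → sSup 𝓣 ∈ 𝓢
  sInf_mem : ∀ 𝓣 ⊆ 𝓢, 𝓣.Nonempty → sInf 𝓣 ∈ 𝓢

/-- the rational numbers do not embed in the chain -/
def Scattered (𝓢 : Set (Subgroup G)) : Prop :=
  ¬ ∃ f : ℚ → Subgroup G, StrictMono f ∧ ∀ q, f q ∈ 𝓢

/-- `S < T` are neighbours in the chain -/
def IsJump (𝓢 : Set (Subgroup G)) (S T : Subgroup G) : Prop :=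
  S ∈ 𝓢 ∧ T ∈ 𝓢 ∧ S < T ∧ ∀ M ∈ 𝓢, S ≤ M → M ≤ T → M = S ∨ M = T

/-- the descending chain condition for the intersections of the members of the chain with each
finitely generated subgroup of `N` -/
def LocallyStabilizing (N : Subgroup G) (𝓢 : Set (Subgroup G)) : Prop :=
  ∀ E : Set G, E.Finite → E ⊆ N → ∀ 𝓣 ⊆ 𝓢, 𝓣.Nonempty →
    ∃ S ∈ 𝓣, Subgroup.closure E ⊓ S ≤ sInf 𝓣

/-- all upper parts of the interval are good -/
def Rel (C : ∀ (G : Type) [Group G], Prop) (𝓢 : Set (Subgroup G)) (S T : Subgroup G) : Prop :=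
  ∀ S' ∈ 𝓢, S ≤ S' → S' ≤ T → Gd C S' T

section

variable {N : Subgroup G} {𝓢 : Set (Subgroup G)} (hC : ClosedE C)
  (hsol : ∀ (S : Type) [Group S], Group.IsSolvable S → C S) (h𝓢 : IsSystem N 𝓢)

include hC hsol h𝓢

theorem Rel.trans {S M T : Subgroup G} (hM : M ∈ 𝓢) (hMT : M ≤ T) (h1 : Rel C 𝓢 S M)
    (h2 : Rel C 𝓢 M T) : Rel C 𝓢 S T := by
  intro S' hS' hSS' hS'T
  rcases h𝓢.chain.total hS' hM with h3 | h3
  · exact Gd.trans hC (h𝓢.normal M hM) h3 hMT (h1 S' hS' hSS' h3) (h2 M hM le_rfl hMT)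
  · exact h2 S' hS' h3 hS'T

theorem Rel.sub {S S1 T1 T : Subgroup G} (h1 : S ≤ S1) (h3 : T1 ≤ T)
    (h : Rel C 𝓢 S T) : Rel C 𝓢 S1 T1 := by
  intro S' hS' hSS' hS'T
  exact Gd.mono hC h3 (h S' hS' (h1.trans hSS') (hS'T.trans h3))

theorem Rel.refl {S : Subgroup G} (hS : S ∈ 𝓢) : Rel C 𝓢 S S := by
  intro S' hS' h1 h2
  have h3 : S' = S := le_antisymm h2 h1
  rw [h3]
  exact Gd.refl hsol (h𝓢.normal S hS)

theorem Rel.jump {S T : Subgroup G} (hj : IsJump 𝓢 S T) (h : Gd C S T) : Rel C 𝓢 S T := by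
  intro S' hS' h1 h2
  rcases hj.2.2.2 S' hS' h1 h2 with h3 | h3
  · rw [h3]; exact h
  · rw [h3]; exact Gd.refl hsol (h𝓢.normal T hj.2.1)

theorem Rel.sup {S : Subgroup G} (𝓣 : Set (Subgroup G)) (hsub : 𝓣 ⊆ 𝓢) (hne : 𝓣.Nonempty)
    (h : ∀ T ∈ 𝓣, Rel C 𝓢 S T) : Rel C 𝓢 S (sSup 𝓣) := by
  intro S' hS' h1 h2
  have hmem := h𝓢.sSup_mem 𝓣 hsub hne
  by_cases h3 : ∃ T ∈ 𝓣, S' ≤ T
  · obtain ⟨T0, hT0, h4⟩ := h3
    have h5 : sSup 𝓣 = sSup {T ∈ 𝓣 | S' ≤ T} := by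
      apply le_antisymm
      · refine sSup_le fun T hT => ?_
        rcases h𝓢.chain.total (hsub hT) (hsub hT0) with h6 | h6
        · exact h6.trans (le_sSup ⟨hT0, h4⟩)
        · exact le_sSup ⟨hT, h4.trans h6⟩
      · exact sSup_le_sSup fun T hT => hT.1
    rw [h5]
    refine Gd.union hC hsol _ ⟨T0, hT0, h4⟩ ?_ ?_ ?_
    · exact h𝓢.chain.mono fun T hT => hsub hT.1
    · exact fun T hT => h𝓢.normal T (hsub hT.1)
    · exact fun T hT => h T hT.1 S' hS' h1 hT.2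
  · push Not at h3
    have h4 : sSup 𝓣 ≤ S' := by
      refine sSup_le fun T hT => ?_
      rcases h𝓢.chain.total hS' (hsub hT) with h5 | h5
      · exact absurd h5 (h3 T hT)
      · exact h5
    have h5 : S' = sSup 𝓣 := le_antisymm h2 h4
    rw [h5]
    exact Gd.refl hsol (h𝓢.normal _ hmem)

theorem Rel.inf (hloc : LocallyStabilizing N 𝓢) {T : Subgroup G} (hT : T ∈ 𝓢)
    (𝓣 : Set (Subgroup G)) (hsub : 𝓣 ⊆ 𝓢) (hne : 𝓣.Nonempty)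
    (h : ∀ S ∈ 𝓣, Rel C 𝓢 S T) (hle : ∀ S ∈ 𝓣, S ≤ T) : Rel C 𝓢 (sInf 𝓣) T := by
  intro S' hS' h1 h2
  by_cases h3 : ∃ S ∈ 𝓣, S ≤ S'
  · obtain ⟨S, hS, h4⟩ := h3
    exact h S hS S' hS' h4 h2
  · push Not at h3
    have h4 : S' ≤ sInf 𝓣 := by
      refine le_sInf fun S hS => ?_
      rcases h𝓢.chain.total hS' (hsub hS) with h5 | h5
      · exact h5
      · exact absurd h5 (h3 S hS)
    have h5 : S' = sInf 𝓣 := le_antisymm h4 h1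
    rw [h5]
    refine Gd.inter hC hsol (h𝓢.normal T hT) 𝓣 (fun S hS => h𝓢.normal S (hsub hS)) ?_ ?_
    · intro E hE hET
      exact hloc E hE (hET.trans (h𝓢.le_top T hT)) 𝓣 hsub hne
    · exact fun S hS => h S hS S (hsub hS) le_rfl (hle S hS)

/-- between unrelated members there is one which is unrelated to both -/
theorem Rel.dense (hloc : LocallyStabilizing N 𝓢) (hjump : ∀ S T, IsJump 𝓢 S T → Gd C S T)
    {S T : Subgroup G} (hS : S ∈ 𝓢) (hT : T ∈ 𝓢) (hST : S ≤ T) (hn : ¬ Rel C 𝓢 S T) :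
    ∃ M ∈ 𝓢, S ≤ M ∧ M ≤ T ∧ ¬ Rel C 𝓢 S M ∧ ¬ Rel C 𝓢 M T := by
  obtain ⟨U, hU⟩ : ∃ U, U = sSup {M ∈ 𝓢 | S ≤ M ∧ M ≤ T ∧ Rel C 𝓢 S M} := ⟨_, rfl⟩
  have hU1 : Rel C 𝓢 S U := by
    rw [hU]
    exact Rel.sup hC hsol h𝓢 _ (fun M hM => hM.1) ⟨S, hS, le_rfl, hST, Rel.refl hC hsol h𝓢 hS⟩
      fun M hM => hM.2.2.2
  have hU𝓢 : U ∈ 𝓢 := by
    rw [hU]
    exact h𝓢.sSup_mem _ (fun M hM => hM.1) ⟨S, hS, le_rfl, hST, Rel.refl hC hsol h𝓢 hS⟩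
  have hUT : U ≤ T := by
    rw [hU]
    exact sSup_le fun M hM => hM.2.2.1
  have hSU : S ≤ U := by
    rw [hU]
    exact le_sSup ⟨hS, le_rfl, hST, Rel.refl hC hsol h𝓢 hS⟩
  have hUmax : ∀ M ∈ 𝓢, S ≤ M → M ≤ T → Rel C 𝓢 S M → M ≤ U := by
    intro M h1 h2 h3 h4
    rw [hU]
    exact le_sSup ⟨h1, h2, h3, h4⟩
  obtain ⟨W, hW⟩ : ∃ W, W = sInf {M ∈ 𝓢 | U ≤ M ∧ M ≤ T ∧ Rel C 𝓢 M T} := ⟨_, rfl⟩
  have hne : ({M ∈ 𝓢 | U ≤ M ∧ M ≤ T ∧ Rel C 𝓢 M T}).Nonempty :=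
    ⟨T, hT, hUT, le_rfl, Rel.refl hC hsol h𝓢 hT⟩
  have hW1 : Rel C 𝓢 W T := by
    rw [hW]
    exact Rel.inf hC hsol h𝓢 hloc hT _ (fun M hM => hM.1) hne (fun M hM => hM.2.2.2)
      fun M hM => hM.2.2.1
  have hW𝓢 : W ∈ 𝓢 := by
    rw [hW]
    exact h𝓢.sInf_mem _ (fun M hM => hM.1) hne
  have hUW : U ≤ W := by
    rw [hW]
    exact le_sInf fun M hM => hM.2.1
  have hWT : W ≤ T := by
    rw [hW]
    exact sInf_le ⟨hT, hUT, le_rfl, Rel.refl hC hsol h𝓢 hT⟩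
  have hWmin : ∀ M ∈ 𝓢, U ≤ M → M ≤ T → Rel C 𝓢 M T → W ≤ M := by
    intro M h1 h2 h3 h4
    rw [hW]
    exact sInf_le ⟨h1, h2, h3, h4⟩
  have hlt : U < W := by
    refine lt_of_le_of_ne hUW fun h => hn ?_
    rw [← h] at hW1
    exact Rel.trans hC hsol h𝓢 hU𝓢 hUT hU1 hW1
  by_cases hj : ∀ M ∈ 𝓢, U ≤ M → M ≤ W → M = U ∨ M = W
  · exfalso
    have h1 : Rel C 𝓢 U W := Rel.jump hC hsol h𝓢 ⟨hU𝓢, hW𝓢, hlt, hj⟩ (hjump U W ⟨hU𝓢, hW𝓢, hlt, hj⟩)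
    have h2 := Rel.trans hC hsol h𝓢 hU𝓢 hUW hU1 h1
    exact absurd (hUmax W hW𝓢 (hSU.trans hUW) hWT h2) (not_le_of_gt hlt)
  · push Not at hj
    obtain ⟨M, hM, h1, h2, h3, h4⟩ := hj
    refine ⟨M, hM, hSU.trans h1, h2.trans hWT, ?_, ?_⟩
    · intro h5
      exact h3 (le_antisymm (hUmax M hM (hSU.trans h1) (h2.trans hWT) h5) h1)
    · intro h5
      exact h4 (le_antisymm h2 (hWmin M hM h1 (h2.trans hWT) h5))

/-- if the ends are unrelated, the rational numbers embed -/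
theorem Rel.ends (hloc : LocallyStabilizing N 𝓢) (hjump : ∀ S T, IsJump 𝓢 S T → Gd C S T)
    (hsc : Scattered 𝓢) : Rel C 𝓢 ⊥ N := by
  by_contra hn
  apply hsc
  -- the maxima of the classes
  let top : Subgroup G → Subgroup G := fun S => sSup {M ∈ 𝓢 | S ≤ M ∧ Rel C 𝓢 S M}
  have htop_ne : ∀ S ∈ 𝓢, ({M ∈ 𝓢 | S ≤ M ∧ Rel C 𝓢 S M}).Nonempty :=
    fun S hS => ⟨S, hS, le_rfl, Rel.refl hC hsol h𝓢 hS⟩
  have htop_mem : ∀ S ∈ 𝓢, top S ∈ 𝓢 := fun S hS =>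
    h𝓢.sSup_mem _ (fun M hM => hM.1) (htop_ne S hS)
  have htop_rel : ∀ S ∈ 𝓢, Rel C 𝓢 S (top S) := fun S hS =>
    Rel.sup hC hsol h𝓢 _ (fun M hM => hM.1) (htop_ne S hS) fun M hM => hM.2.2
  have htop_le : ∀ S ∈ 𝓢, S ≤ top S := fun S hS =>
    le_sSup ⟨hS, le_rfl, Rel.refl hC hsol h𝓢 hS⟩
  have htop_max : ∀ S M, M ∈ 𝓢 → S ≤ M → Rel C 𝓢 S M → M ≤ top S :=
    fun S M h1 h2 h3 => le_sSup ⟨h1, h2, h3⟩
  -- if `S ≤ T` are unrelated then `top S < T`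
  have hlt : ∀ S ∈ 𝓢, ∀ T ∈ 𝓢, S ≤ T → ¬ Rel C 𝓢 S T → top S < T := by
    intro S hS T hT hST hn'
    rcases h𝓢.chain.total (htop_mem S hS) hT with h1 | h1
    · refine lt_of_le_of_ne h1 fun h2 => hn' ?_
      rw [← h2]
      exact htop_rel S hS
    · exact absurd (Rel.sub hC hsol h𝓢 le_rfl h1 (htop_rel S hS)) hn'
  let D : Set (Subgroup G) := {T | T ∈ 𝓢 ∧ top T = T}
  have htt : ∀ S ∈ 𝓢, top S ∈ D := by
    intro S hS
    refine ⟨htop_mem S hS, le_antisymm ?_ (htop_le _ (htop_mem S hS))⟩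
    refine htop_max S _ (htop_mem _ (htop_mem S hS))
      ((htop_le S hS).trans (htop_le _ (htop_mem S hS))) ?_
    exact Rel.trans hC hsol h𝓢 (htop_mem S hS) (htop_le _ (htop_mem S hS)) (htop_rel S hS)
      (htop_rel _ (htop_mem S hS))
  have hDn : ∀ S ∈ D, ∀ T ∈ D, S < T → ¬ Rel C 𝓢 S T := by
    intro S hS T hT hST hr
    have h1 := htop_max S T hT.1 hST.le hr
    rw [hS.2] at h1
    exact absurd h1 (not_le_of_gt hST)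
  letI : LinearOrder D :=
    { (inferInstance : PartialOrder D) with
      le_total := fun a b => h𝓢.chain.total a.2.1 b.2.1
      toDecidableLE := Classical.decRel _ }
  have hdense : DenselyOrdered D := by
    constructor
    rintro ⟨S, hS⟩ ⟨T, hT⟩ hST
    have hST' : S < T := hST
    obtain ⟨M, hM, h1, h2, h3, h4⟩ := Rel.dense hC hsol h𝓢 hloc hjump hS.1 hT.1 hST'.le
      (hDn S hS T hT hST')
    refine ⟨⟨top M, htt M hM⟩, ?_, ?_⟩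
    · show S < top M
      have h5 := hlt S hS.1 M hM h1 h3
      rw [hS.2] at h5
      exact lt_of_lt_of_le h5 (htop_le M hM)
    · show top M < T
      exact hlt M hM T hT.1 h2 h4
  have hnt : Nontrivial D := by
    refine ⟨⟨top ⊥, htt ⊥ h𝓢.bot_mem⟩, ⟨top N, htt N h𝓢.top_mem⟩, ?_⟩
    intro h
    have h1 : top ⊥ = top N := congrArg Subtype.val h
    have h2 := hlt ⊥ h𝓢.bot_mem N h𝓢.top_mem bot_le hn
    rw [h1] at h2
    exact absurd (htop_le N h𝓢.top_mem) (not_le_of_gt h2)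
  obtain ⟨f⟩ := Order.embedding_from_countable_to_dense ℚ D
  exact ⟨fun q => (f q : Subgroup G), fun a b hab => f.strictMono hab, fun q => (f q).2.1⟩

/-- **main theorem** -/
theorem scattered_main [N.Normal] (hloc : LocallyStabilizing N 𝓢)
    (hjump : ∀ S T, IsJump 𝓢 S T → Gd C S T) (hsc : Scattered 𝓢) (hQ : C (G ⧸ N)) : C G :=
  Gd.final hC N hQ ((Rel.ends hC hsol h𝓢 hloc hjump hsc) ⊥ h𝓢.bot_mem le_rfl bot_le)

end

end Pool.Agent.U89.SC
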